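import Pool.Agent.H.MP_d104cf_an.B

namespace Pool.Agent.Results.MP_d104cf_an.Yes

open Set Filter Topology MeasureTheory TopologicalSpace
open scoped ENNReal BoundedContinuousFunction CompactlySupported

/-- `K_u(E)`, a subset of `E → [0,∞]` carrying the topology of pointwise convergence. -/
def Ku {E : Type} [AddCommGroup E] [Module ℝ E] [Lattice E] (u : E) : Set (E → ℝ≥0∞) :=
  {φ | φ u = 1 ∧ (∀ x y, 0 ≤ x → 0 ≤ y → φ (x + y) = φ x + φ y) ∧
    (∀ x y, 0 ≤ x → 0 ≤ y → φ (x ⊓ y) = φ x ⊓ φ y) ∧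
    ∀ (r : ℝ) (z : E), φ (r • z) = ENNReal.ofReal |r| * φ |z|}

/-- `P(K)`: regular Borel probability measures with the weak* topology. -/
abbrev P (K : Type) [TopologicalSpace K] [MeasurableSpace K] : Type :=
  {ν : ProbabilityMeasure K // (ν : Measure K).Regular}

section
variable {K : Type} [TopologicalSpace K] [CompactSpace K] [T2Space K] [MeasurableSpace K]
  [BorelSpace K]

noncomputable def I (ν : P K) (f : C(K, ℝ)) : ℝ := ∫ x, f x ∂(ν.1 : Measure K)

lemma intg (ν : P K) (f : C(K, ℝ)) : Integrable f (ν.1 : Measure K) :=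
  (BoundedContinuousFunction.mkOfCompact f).integrable _

lemma I_add (ν : P K) (f g : C(K, ℝ)) : I ν (f + g) = I ν f + I ν g :=
  integral_add (intg ν f) (intg ν g)

lemma I_smul (ν : P K) (c : ℝ) (f : C(K, ℝ)) : I ν (c • f) = c * I ν f := integral_smul c f

lemma I_mono (ν : P K) {f g : C(K, ℝ)} (h : f ≤ g) : I ν f ≤ I ν g :=
  integral_mono (intg ν f) (intg ν g) h

lemma I_one (ν : P K) : I ν 1 = 1 := by simp [I]

lemma det {μ : P K} (h : IsGδ ({μ} : Set (P K))) :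
    ∃ D : Set C(K, ℝ), D.Countable ∧ ∀ ν : P K, (∀ f ∈ D, I ν f = I μ f) → ν = μ := by
  obtain ⟨T, hT, hc, he⟩ := h
  have key : ∀ U ∈ T, ∃ D : Set C(K, ℝ), D.Finite ∧
      ∀ ν : P K, (∀ f ∈ D, I ν f = I μ f) → ν ∈ U := by
    intro U hU
    have h1 : Tendsto (fun ν : P K => ν) (comap I (𝓝 (I μ))) (𝓝 μ) := by
      rw [tendsto_subtype_rng, ProbabilityMeasure.tendsto_iff_forall_integral_tendsto]
      exact fun f => (tendsto_pi_nhds.1 (tendsto_comap (f := I) (x := 𝓝 (I μ)))) f.toContinuousMap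
    have hμ : μ ∈ U := (he.subset rfl) U hU
    obtain ⟨t, ht, hs⟩ := mem_comap.1 (h1 ((hT U hU).mem_nhds hμ))
    rw [nhds_pi, Filter.mem_pi] at ht
    obtain ⟨D, hD, s, hs1, hs2⟩ := ht
    exact ⟨D, hD, fun ν hν => hs (hs2 fun f hf => hν f hf ▸ mem_of_mem_nhds (hs1 f))⟩
  choose! D h1 h2 using key
  refine ⟨⋃ U ∈ T, D U, hc.biUnion fun U hU => (h1 U hU).countable, fun ν hν => ?_⟩
  have : ν ∈ ⋂₀ T := fun U hU => h2 U hU ν fun f hf => hν f (mem_biUnion hU hf)
  rwa [← he] at this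

lemma approx0 {μ : P K} {W : Submodule ℝ C(K, ℝ)} (h1 : (1 : C(K, ℝ)) ∈ W)
    (h : ∀ ν : P K, (∀ f ∈ W, I ν f = I μ f) → ν = μ) (g : C(K, ℝ)) {ε : ℝ} (hε : 0 < ε) :
    ∃ f ∈ W, g ≤ f ∧ I μ f < I μ g + ε := by
  let A : C(K, ℝ) → Set ℝ := fun g => {t | ∃ f ∈ W, g ≤ f ∧ I μ f = t}
  have ne : ∀ g, (A g).Nonempty := fun g => ⟨_, ‖g‖ • 1, W.smul_mem _ h1, fun k => by
    simpa using (le_abs_self _).trans (g.norm_coe_le_norm k), rfl⟩
  have bd : ∀ g, I μ g ∈ lowerBounds (A g) := by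
    rintro g _ ⟨f, -, a, rfl⟩
    exact I_mono μ a
  let p : C(K, ℝ) → ℝ := fun g => sInf (A g)
  have ple : ∀ g, ∀ f ∈ W, g ≤ f → p g ≤ I μ f := fun g f a b => csInf_le ⟨_, bd g⟩ ⟨f, a, b, rfl⟩
  have padd : ∀ x y, p (x + y) ≤ p x + p y := by
    intro x y
    have : ∀ s ∈ A x, ∀ t ∈ A y, p (x + y) ≤ s + t := by
      rintro _ ⟨f, a, b, rfl⟩ _ ⟨f', a', b', rfl⟩
      rw [← I_add]
      exact ple _ _ (W.add_mem a a') (add_le_add b b')
    rw [← sub_le_iff_le_add]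
    refine le_csInf (ne x) fun s hs => ?_
    rw [sub_le_comm]
    refine le_csInf (ne y) fun t ht => ?_
    linarith [this s hs t ht]
  have ph : ∀ c : ℝ, 0 < c → ∀ x, p (c • x) ≤ c * p x := by
    intro c hc x
    rw [← div_le_iff₀' hc]
    refine le_csInf (ne x) ?_
    rintro _ ⟨f, a, b, rfl⟩
    rw [div_le_iff₀' hc, ← I_smul]
    exact ple _ _ (W.smul_mem c a) (smul_le_smul_of_nonneg_left b hc.le)
  have phom : ∀ c : ℝ, 0 < c → ∀ x, p (c • x) = c * p x := fun c hc x => by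
    refine le_antisymm (ph c hc x) ?_
    have := ph c⁻¹ (inv_pos.2 hc) (c • x)
    rw [smul_smul, inv_mul_cancel₀ hc.ne', one_smul] at this
    rw [← le_div_iff₀' hc, div_eq_inv_mul]
    exact this
  have p0 : p 0 = 0 := by
    have := phom 2 (by norm_num) 0
    rw [smul_zero] at this
    linarith
  by_cases hg : g = 0
  · exact ⟨0, W.zero_mem, hg.le, by rw [hg]; linarith⟩
  obtain ⟨L, hL1, hL⟩ := exists_extension_of_le_sublinear
    (LinearPMap.mkSpanSingleton g (p g) hg) p phom padd (by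
      rintro ⟨_, hx⟩
      obtain ⟨c, rfl⟩ := Submodule.mem_span_singleton.1 hx
      rw [LinearPMap.mkSpanSingleton'_apply, smul_eq_mul]
      rcases lt_trichotomy c 0 with a | rfl | a
      · have b := padd (c • g) ((-c) • g)
        rw [← add_smul, add_neg_cancel, zero_smul, p0, phom (-c) (by linarith)] at b
        show c * p g ≤ p (c • g)
        linarith
      · simp [p0]
      · exact (phom c a g).ge)
  have hLg : L g = p g := by
    have := hL1 ⟨g, Submodule.mem_span_singleton_self g⟩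
    rwa [LinearPMap.mkSpanSingleton_apply] at this
  have hLW : ∀ f ∈ W, L f = I μ f := fun f hf => by
    have a := (hL f).trans (ple f f hf le_rfl)
    have b := (hL (-f)).trans (ple _ _ (W.neg_mem hf) le_rfl)
    rw [map_neg, ← neg_one_smul ℝ f, I_smul] at b
    linarith
  let Λ : C_c(K, ℝ) →ₚ[ℝ] ℝ :=
    { toFun f := L f.toContinuousMap
      map_add' f f' := L.map_add _ _
      map_smul' c f := L.map_smul _ _
      monotone' f f' hf := by
        have a := (hL (f.toContinuousMap - f'.toContinuousMap)).trans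
          (ple _ 0 W.zero_mem (sub_nonpos.2 hf))
        have b : I μ 0 = 0 := by simp [I]
        rw [map_sub, b] at a
        exact sub_nonpos.1 a }
  have hΛ : ∀ f : C(K, ℝ), ∫ x, f x ∂(RealRMK.rieszMeasure Λ) = L f := fun f =>
    RealRMK.integral_rieszMeasure Λ ⟨f, HasCompactSupport.of_compactSpace _⟩
  have hP : IsProbabilityMeasure (RealRMK.rieszMeasure Λ) := by
    have := hΛ 1
    rw [hLW 1 h1, I_one] at this
    simp only [ContinuousMap.one_apply, integral_const, smul_eq_mul, mul_one] at this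
    exact ⟨(ENNReal.toReal_eq_one_iff _).1 this⟩
  have e := h ⟨⟨_, hP⟩, RealRMK.regular_rieszMeasure Λ⟩ fun f hf => (hΛ f).trans (hLW f hf)
  have e2 : I μ g = p g := by rw [← e, ← hLg]; exact hΛ g
  obtain ⟨_, ⟨f, a, b, rfl⟩, c⟩ := exists_lt_of_csInf_lt (ne g) (show p g < I μ g + ε by linarith)
  exact ⟨f, a, b, c⟩

lemma approx {μ : P K} (h : IsGδ ({μ} : Set (P K))) : ∃ D : Set C(K, ℝ), D.Countable ∧
    ∀ (g : C(K, ℝ)) (ε : ℝ), 0 < ε → ∃ d ∈ D, g ≤ d ∧ I μ d ≤ I μ g + ε := by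
  obtain ⟨D0, h1, h2⟩ := det h
  obtain ⟨D, hD, hs⟩ := (h1.insert 1).isSeparable.span (R := ℝ)
  refine ⟨D, hD, fun g ε hε => ?_⟩
  have h1W : (1 : C(K, ℝ)) ∈ Submodule.span ℝ (insert 1 D0) :=
    Submodule.subset_span (mem_insert _ _)
  obtain ⟨f, a, b, c⟩ := approx0 (μ := μ) h1W (fun ν hν => h2 ν fun f hf =>
    hν f (Submodule.subset_span (mem_insert_of_mem _ hf))) g (ε := ε / 3) (by positivity)
  obtain ⟨d, hd, hd'⟩ := Metric.mem_closure_iff.1
    (hs (Submodule.add_mem _ a (Submodule.smul_mem _ (ε / 3) h1W))) (ε / 3) (by positivity)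
  have k1 : ∀ k, |f k + ε / 3 - d k| ≤ ε / 3 := fun k => by
    simpa [Real.dist_eq] using (ContinuousMap.dist_apply_le_dist k).trans hd'.le
  refine ⟨d, hd, fun k => ?_, ?_⟩
  · have t1 : g k ≤ f k := b k
    have t2 := (abs_le.1 (k1 k)).2
    show g k ≤ d k
    linarith
  · have : d ≤ f + (2 * (ε / 3)) • (1 : C(K, ℝ)) := fun k => by
      have := (abs_le.1 (k1 k)).1
      show d k ≤ f k + 2 * (ε / 3) * 1
      linarith
    have := I_mono μ this
    rw [I_add, I_smul, I_one] at this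
    linarith

noncomputable abbrev J (μ : P K) : C(K, ℝ) →L[ℝ] Lp ℝ 1 (μ.1 : Measure K) :=
  ContinuousMap.toLp 1 (μ.1 : Measure K) ℝ

lemma J_mono (μ : P K) {f g : C(K, ℝ)} (h : f ≤ g) : J μ f ≤ J μ g := by
  rw [← Lp.coeFn_le]
  filter_upwards [ContinuousMap.coeFn_toLp (p := 1) (𝕜 := ℝ) (μ.1 : Measure K) f,
    ContinuousMap.coeFn_toLp (p := 1) (𝕜 := ℝ) (μ.1 : Measure K) g] with x a b
  rw [a, b]; exact h x

lemma J_dist (μ : P K) {f g : C(K, ℝ)} (h : f ≤ g) : dist (J μ g) (J μ f) = I μ g - I μ f := by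
  rw [dist_eq_norm, ← map_sub, L1.norm_eq_integral_norm, I, I,
    ← integral_sub (intg μ g) (intg μ f)]
  refine integral_congr_ae ?_
  filter_upwards [ContinuousMap.coeFn_toLp (p := 1) (𝕜 := ℝ) (μ.1 : Measure K) (g - f)] with x a
  rw [a]
  exact abs_of_nonneg (sub_nonneg.2 (h x))

lemma J_cl {μ : P K} {D : Set C(K, ℝ)}
    (h : ∀ (g : C(K, ℝ)) (ε : ℝ), 0 < ε → ∃ d ∈ D, g ≤ d ∧ I μ d ≤ I μ g + ε) (g : C(K, ℝ)) :
    J μ g ∈ closure (J μ '' {d ∈ D | g ≤ d}) := by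
  refine Metric.mem_closure_iff.2 fun ε hε => ?_
  obtain ⟨d, a, b, c⟩ := h g (ε / 2) (by positivity)
  refine ⟨_, ⟨d, ⟨a, b⟩, rfl⟩, ?_⟩
  rw [dist_comm, J_dist μ b]
  linarith

end

open Pool.Agent.H.MP_d104cf_an in
theorem result (K : Type) [TopologicalSpace K] [CompactSpace K] [T2Space K] [MeasurableSpace K]
    [BorelSpace K] (E : Type) [NormedAddCommGroup E] [NormedSpace ℝ E] [Lattice E]
    [HasSolidNorm E] [IsOrderedAddMonoid E] [PosSMulMono ℝ E] [CompleteSpace E]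
    [SeparableSpace E] (u : E) (hu : 0 ≤ u) (_hu0 : u ≠ 0) (hK : Nonempty (K ≃ₜ Ku u))
    (μ : P K) (hμ : IsGδ ({μ} : Set (P K))) :
    SeparableSpace (Lp ℝ 1 (μ.1 : Measure K)) ∧
      AnalyticSet (range (ContinuousMap.toLp 1 (μ.1 : Measure K) ℝ :
        C(K, ℝ) →L[ℝ] Lp ℝ 1 (μ.1 : Measure K))) := by
  obtain ⟨e⟩ : Nonempty (K ≃ₜ H.MP_d104cf_an.Ku u) := hK
  obtain ⟨D, hD, h⟩ := approx hμ
  have := μ.2
  have hsep : SeparableSpace (Lp ℝ 1 (μ.1 : Measure K)) := by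
    refine ⟨J μ '' D, hD.image _, ?_⟩
    have hd := ContinuousMap.toLp_denseRange ℝ (μ.1 : Measure K) ℝ (p := 1) (by simp)
    refine (Dense.mono ?_ hd).of_closure
    rintro _ ⟨g, rfl⟩
    exact closure_mono (image_mono fun _ a => a.1) (J_cl h g)
  refine ⟨hsep, ?_⟩
  choose T hT using surj (e := e) hu
  borelize (E × Lp ℝ 1 (μ.1 : Measure K))
  let S : Set (E × Lp ℝ 1 (μ.1 : Measure K)) := (⋃ n : ℕ, {z | |z.1| ≤ (n : ℝ) • u}) ∩
    ⋂ d ∈ D, (({z | z.1 ≤ T d}ᶜ ∪ {z | z.2 ≤ J μ d}) ∩ ({z | -z.1 ≤ T d}ᶜ ∪ {z | -z.2 ≤ J μ d}))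
  have hS : MeasurableSet S := by
    refine (MeasurableSet.iUnion fun n => IsClosed.measurableSet ?_).inter
      (MeasurableSet.biInter hD fun d _ => MeasurableSet.inter
        ((IsClosed.measurableSet ?_).compl.union (IsClosed.measurableSet ?_))
        ((IsClosed.measurableSet ?_).compl.union (IsClosed.measurableSet ?_)))
    · exact isClosed_le (continuous_fst.sup continuous_fst.neg) continuous_const
    · exact isClosed_le continuous_fst continuous_const
    · exact isClosed_le continuous_snd continuous_const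
    · exact isClosed_le continuous_fst.neg continuous_const
    · exact isClosed_le continuous_snd.neg continuous_const
  have neg : ∀ {y g}, Rep e y g → Rep e (-y) (-g) := fun a => by simpa using a.smul hu (-1)
  have eq : range (J μ) = Prod.snd '' S := by
    ext z
    constructor
    · rintro ⟨g, rfl⟩
      obtain ⟨R, hR⟩ := (hT g).1
      refine ⟨(T g, J μ g), ⟨mem_iUnion.2 ⟨⌈R⌉₊, hR.trans (sm_mono hu (Nat.le_ceil R))⟩,
        mem_biInter fun d _ => ⟨or_iff_not_imp_left.2 fun a => ?_,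
          or_iff_not_imp_left.2 fun a => ?_⟩⟩, rfl⟩
      · exact J_mono μ (((hT g).le_iff hu (hT d)).1 (not_not.1 a))
      · have := J_mono μ (((neg (hT g)).le_iff hu (hT d)).1 (not_not.1 a))
        rwa [map_neg] at this
    · rintro ⟨⟨y, z⟩, ⟨h1, h2⟩, rfl⟩
      obtain ⟨n, hn⟩ := mem_iUnion.1 h1
      obtain ⟨g, hg⟩ := rep_ex (e := e) hu (⟨n, hn⟩ : Bd u y)
      rw [mem_iInter₂] at h2
      have a : z ≤ J μ g := by
        refine closure_minimal (t := Ici z) ?_ isClosed_Ici (J_cl h g)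
        rintro _ ⟨d, ⟨a, b⟩, rfl⟩
        exact (h2 d a).1.resolve_left (not_not.2 ((hg.le_iff hu (hT d)).2 b))
      have b : -z ≤ J μ (-g) := by
        refine closure_minimal (t := Ici (-z)) ?_ isClosed_Ici (J_cl h (-g))
        rintro _ ⟨d, ⟨a, b⟩, rfl⟩
        exact (h2 d a).2.resolve_left (not_not.2 (((neg hg).le_iff hu (hT d)).2 b))
      rw [map_neg, neg_le_neg_iff] at b
      exact ⟨g, le_antisymm b a⟩
  exact eq ▸ hS.analyticSet.image_of_continuous continuous_snd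

end Pool.Agent.Results.MP_d104cf_an.Yes
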